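import Pool.Agent.QUD.StmtsU

/-!
# Squad QUD, row SQR: the square root at the singularity
-/

set_option autoImplicit false

namespace Pool.Agent.QUD.H59

open MeasureTheory Filter Topology Real Set Pool.Agent.AEU Pool.Agent.AEU.H12 Pool.Agent.XQ
  Pool.Agent.XQ.U Pool.Agent.QUD

theorem sqr_sqrt {u : ℝ} (hu : 0 < u) : AnalyticAt ℝ (fun x : ℝ => √x) u := by
  have h1 : AnalyticAt ℝ (fun x : ℝ => Real.exp (Real.log x / 2)) u := by
    have h2 : AnalyticAt ℝ Real.log u := analyticAt_log hu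
    have h3 : AnalyticAt ℝ (fun x : ℝ => Real.log x / 2) u := by fun_prop
    exact h3.rexp
  refine h1.congr ?_
  filter_upwards [lt_mem_nhds hu] with x hx
  rw [Real.sqrt_eq_rpow, Real.rpow_def_of_pos hx]
  congr 1
  ring

theorem sqr (h1 : AnfStmt) (h2 : PolStmt) (h3 : SqbStmt) (h4 : SqcStmt)
    (h5 : Pool.Agent.XQ.U.SingStmt) : SqrStmt := by
  intro b x y x' hb hx hy hx' hDel hKC
  obtain ⟨hz0, hzx, -⟩ := h5 b hb
  set z0 : ℝ := Pool.Agent.XQ.U.zb b with hz0def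
  have hin : ∀ w, w ∈ Ioo 1 b → w ∈ Ioo (1 : ℝ) 2 := fun w hw => ⟨hw.1, hw.2.trans hb.2⟩
  have hzb1 : ∀ w : ℝ, Pool.Agent.XQ.U.zb w ≤ 1 := by
    intro w
    unfold Pool.Agent.XQ.U.zb
    exact Real.cos_sq_le_one _
  have hz1 : z0 < 1 := lt_of_lt_of_le (hzx x hx) (hzb1 x)
  have hA : ∀ w, w ∈ Ioo 1 b → AnalyticOnNhd ℝ (Pool.Agent.XQ.U.FR w) (Icc 0 z0) := by
    intro w hw
    refine (h1 w (hin w hw)).1.mono ?_
    intro ζ hζ
    have h6 := hzx w hw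
    constructor
    · linarith [hζ.1]
    · linarith [hζ.2]
  set g : ℝ → ℝ := fun ζ => Pool.Agent.XQ.U.FR x ζ + Pool.Agent.XQ.U.FR y ζ
    - Pool.Agent.XQ.U.FR x' ζ with hg
  have hgA : AnalyticOnNhd ℝ g (Icc 0 z0) := ((hA x hx).add (hA y hy)).sub (hA x' hx')
  have hgd : HasDerivAt g (FA x + FA y - FA x') 0 :=
    ((h1 x (hin x hx)).2.add (h1 y (hin y hy)).2).sub (h1 x' (hin x' hx')).2
  have hgz : g z0 = g 0 := by
    unfold Pool.Agent.XQ.U.Del at hDel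
    rw [← hz0def] at hDel
    show Pool.Agent.XQ.U.FR x z0 + Pool.Agent.XQ.U.FR y z0 - Pool.Agent.XQ.U.FR x' z0
      = Pool.Agent.XQ.U.FR x 0 + Pool.Agent.XQ.U.FR y 0 - Pool.Agent.XQ.U.FR x' 0
    linarith
  obtain ⟨r, hrA, hr0, hrF⟩ := h2 b hb
  rw [← hz0def] at hrA hr0 hrF
  set rh : ℝ → ℝ := fun ζ => r ζ / √(1 - ζ) with hrh
  have hrhA : AnalyticOnNhd ℝ rh (Icc 0 z0) := by
    intro ζ hζ
    have h6 : 0 < 1 - ζ := by linarith [hζ.2]
    have h7 : AnalyticAt ℝ (fun x : ℝ => 1 - x) ζ := by fun_prop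
    have h8 : AnalyticAt ℝ (fun x : ℝ => √(1 - x)) ζ :=
      AnalyticAt.comp (g := fun x : ℝ => √x) (f := fun x : ℝ => 1 - x) (sqr_sqrt h6) h7
    exact (hrA ζ hζ).div h8 (Real.sqrt_pos.mpr h6).ne'
  have hX : ∀ z ∈ Ioo 0 z0, ∀ t : ℝ, z * sin t ^ 2 ∈ Ico 0 z0 := by
    intro z hz t
    have h6 : sin t ^ 2 ≤ 1 := Real.sin_sq_le_one t
    have h7 := sq_nonneg (sin t)
    constructor
    · exact mul_nonneg hz.1.le h7
    · have h8 : z * sin t ^ 2 ≤ z * 1 := mul_le_mul_of_nonneg_left h6 hz.1.le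
      linarith [hz.2]
  have key : ∀ z ∈ Ioo 0 z0, Pool.Agent.XQ.U.DR b x z + Pool.Agent.XQ.U.DR b y z
      - Pool.Agent.XQ.U.DR b x' z
      = 4 * ∫ t in Ioo 0 (π / 2), rh (z * sin t ^ 2) * (g (z * sin t ^ 2) - g (Yv z t))
        / (z0 - z * sin t ^ 2) := by
    intro z hz
    obtain ⟨i1, e1⟩ := h3 b x z hb hx hz
    obtain ⟨i2, e2⟩ := h3 b y z hb hy hz
    obtain ⟨i3, e3⟩ := h3 b x' z hb hx' hz
    have i12 : IntegrableOn (fun t => Pool.Agent.XQ.U.FR b (z * sin t ^ 2)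
          * (Pool.Agent.XQ.U.FR x (z * sin t ^ 2) - Pool.Agent.XQ.U.FR x (Pool.Agent.XQ.U.YY z t))
          / √(1 - z * sin t ^ 2)
        + Pool.Agent.XQ.U.FR b (z * sin t ^ 2)
          * (Pool.Agent.XQ.U.FR y (z * sin t ^ 2) - Pool.Agent.XQ.U.FR y (Pool.Agent.XQ.U.YY z t))
          / √(1 - z * sin t ^ 2)) (Ioo 0 (π / 2)) := i1.add i2
    rw [e1, e2, e3, ← mul_add, ← mul_sub, ← integral_add i1 i2, ← integral_sub i12 i3]
    congr 1
    refine integral_congr_ae (Eventually.of_forall fun t => ?_)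
    have hF := hrF _ (hX z hz t)
    have hYY : Pool.Agent.XQ.U.YY z t = Yv z t := rfl
    simp only [hF, hYY, hrh, hg]
    ring
  obtain ⟨K, C, hev⟩ := hKC
  have hfin : rh z0 * deriv g 0 = 0 := by
    refine h4 z0 rh g hz0 hz1 hrhA hgA hgz ⟨K / 4, C / 4, ?_⟩
    have hmem : ∀ᶠ z in 𝓝[<] z0, z ∈ Ioo 0 z0 := Ioo_mem_nhdsLT hz0
    filter_upwards [hev, hmem] with z hz1' hz2
    rw [key z hz2] at hz1'
    set J := ∫ t in Ioo 0 (π / 2), rh (z * sin t ^ 2) * (g (z * sin t ^ 2) - g (Yv z t))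
        / (z0 - z * sin t ^ 2) with hJ
    have e : J - K / 4 = (4 * J - K) / 4 := by ring
    rw [e, abs_div, abs_of_pos (by norm_num : (0 : ℝ) < 4)]
    have e2 : C / 4 * (z0 - z) = C * (z0 - z) / 4 := by ring
    rw [e2]
    exact div_le_div_of_nonneg_right hz1' (by norm_num)
  have hrh0 : rh z0 ≠ 0 := by
    have h6 : 0 < 1 - z0 := by linarith
    exact (div_pos hr0 (Real.sqrt_pos.mpr h6)).ne'
  have hd0 : deriv g 0 = 0 := (mul_eq_zero.mp hfin).resolve_left hrh0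
  rw [hgd.deriv] at hd0
  linarith

end Pool.Agent.QUD.H59
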